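import Pool.Agent.T6helper6.SM.Fil
import Pool.Agent.T6helper6.MT.Final

/-!
# The motivic t-structure of a tensor triangulated category generated by a class of objects in the
heart
-/

set_option autoImplicit false
set_option linter.unusedSectionVars false
set_option linter.unusedSimpArgs false
set_option backward.isDefEq.respectTransparency false
set_option backward.defeqAttrib.useBackward true

open CategoryTheory Limits MonoidalCategory Pretriangulated Triangulated ZeroObject

namespace Pool.Agent.T6helper6.SM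

open Pool.Agent.Y116.MT Pool.Agent.V1178.MT Pool.Agent.T6helper6.MT Pool.Agent.T6helper6.FF

universe v u w

section

variable {C : Type u} [Category.{v} C] [Preadditive C] [HasZeroObject C] [HasShift C ℤ]
  [∀ n : ℤ, (shiftFunctor C n).Additive] [Pretriangulated C] [MonoidalCategory C]
  [SymmetricCategory C] [TensorTriangulated C]

/-- A class of objects which are in degree zero for all the realisations, closed under direct
summands, without morphisms of negative degree, and with regular morphisms; the realisation `R l₀`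
is conservative on it. -/
structure IsHeartClass {Λ : Type*} {E : Λ → Type w} [∀ l, Field (E l)]
    (R : ∀ l, Realisation C (E l)) (l₀ : Λ) (S : C → Prop) : Prop where
  retract {X Y : C} (i : Y ⟶ X) (r : X ⟶ Y) : i ≫ r = 𝟙 Y → S X → S Y
  negative {X Y : C} : S X → S Y → ∀ n : ℤ, n < 0 → ∀ f : X ⟶ Y⟦n⟧, f = 0
  regular {X Y : C} : S X → S Y → ∀ f : X ⟶ Y, ∃ g : Y ⟶ X, f ≫ g ≫ f = f
  degree {X : C} : S X → ∀ l, ∀ i : ℤ, i ≠ 0 → IsZero ((R l).H.obj (X⟦i⟧))
  conservative {X : C} : S X → IsZero ((R l₀).H.obj X) → IsZero X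

variable {Λ : Type*} {E : Λ → Type w} [∀ l, Field (E l)]
    {R : ∀ l, Realisation C (E l)} {l₀ : Λ} {S : C → Prop} (h : IsHeartClass R l₀ S)

include h

lemma S_iso {M N : C} (hM : S M) (e : M ≅ N) : S N := h.retract e.inv e.hom e.inv_hom_id hM

lemma semi : Semi (C := C) (fun b X => S (X⟦b⟧)) where
  retract {b X Y} i r hir hX := by
    refine h.retract (i⟦b⟧') (r⟦b⟧') ?_ hX
    rw [← Functor.map_comp, hir, CategoryTheory.Functor.map_id]
  orth {b c X Y} hbc hX hY f := by
    apply (shiftFunctor C b).map_injective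
    rw [Functor.map_zero, ← cancel_mono ((shiftFunctorAdd' C c (b - c) b (by omega)).hom.app Y),
      zero_comp]
    exact h.negative hX hY _ (by omega) _
  regular {b X Y} hX hY f := by
    obtain ⟨g, hg⟩ := h.regular hX hY (f⟦b⟧')
    obtain ⟨g', rfl⟩ := (shiftFunctor C b).map_surjective g
    refine ⟨g', (shiftFunctor C b).map_injective ?_⟩
    rw [Functor.map_comp, Functor.map_comp]
    exact hg
  shift {b X} hX a c hac := S_iso h hX ((shiftFunctorAdd' C a c b hac).app X)

lemma Q_deg {b : ℤ} {X : C} (hX : S (X⟦b⟧)) (l : Λ) : (R l).Deg X b := by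
  have h1 : (R l).Deg (X⟦b⟧) 0 := h.degree hX l
  exact (h1.shift (-b) b (by omega)).iso ((shiftEquiv C b).unitIso.symm.app X)

lemma fil_ge {a : ℤ} {X : C} (hX : FilQ (fun b X => S (X⟦b⟧)) a X) (l : Λ) : RGe (R l) a X := by
  induction hX with
  | zero hz => exact RGe.of_isZero hz _
  | step h1 h2 h3 h4 ih => exact ((deg_iff.1 (Q_deg h h3 l)).2.mid h2 ih).mono h1

lemma le_le {a : ℤ} {X : C} (hX : LeQ (fun b X => S (X⟦b⟧)) a X) (l : Λ) : RLe (R l) a X := by
  induction hX with
  | zero hz => exact RLe.of_isZero hz _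
  | step h1 h2 h3 h4 ih => exact ((deg_iff.1 (Q_deg h h3 l)).1.mono h1).mid h2 ih

lemma fil_cons {a : ℤ} {X : C} (hX : FilQ (fun b X => S (X⟦b⟧)) a X)
    (h0 : ∀ i : ℤ, IsZero ((R l₀).H.obj (X⟦i⟧))) : IsZero X := by
  induction hX with
  | zero hz => exact hz
  | @step a b X K Z u v w h1 h2 h3 h4 ih =>
    have h5 : IsZero ((R l₀).H.obj (K⟦b⟧)) :=
      hz1 (R l₀).H h2 b (h0 b) (fil_ge h h4 l₀ _ (by omega))
    have hK : IsZero K := isZero_of_shift b (h.conservative h3 h5)
    exact isZero2 h2 hK (ih fun i => hz3 (R l₀).H h2 i (h0 i)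
      ((R l₀).H.map_isZero (isZero_shift hK _)))

variable [IsTriangulated C] [IsIdempotentComplete C]

/-- Direct summands of filtered objects. -/
def RD (S : C → Prop) (X : C) : Prop :=
  ∃ (X' : C) (a : ℤ) (i : X ⟶ X') (r : X' ⟶ X), i ≫ r = 𝟙 X ∧ FilQ (fun b X => S (X⟦b⟧)) a X'

lemma rd_of_gen {X : C} (hX : Gen S X) : RD S X := by
  have hQ := semi h
  induction hX with
  | @of X hX =>
    have h1 : S (X⟦(0 : ℤ)⟧) := S_iso h hX ((shiftFunctorZero C ℤ).symm.app X)
    exact ⟨X, 0, 𝟙 X, 𝟙 X, Category.comp_id _,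
      FilQ.step le_rfl (contractible_distinguished X) h1 (FilQ.zero (isZero_zero C))⟩
  | shift n _ ih =>
    obtain ⟨X', a, i, r, hir, ha⟩ := ih
    exact ⟨X'⟦n⟧, a - n, i⟦n⟧', r⟦n⟧', by rw [← Functor.map_comp, hir, CategoryTheory.Functor.map_id],
      ha.shift hQ n (a - n) (by omega)⟩
  | @cone X Y Z f g d hT _ _ ih1 ih2 =>
    obtain ⟨X', a, i, r, hir, ha⟩ := ih1
    obtain ⟨Y', b, j, s, hjs, hb⟩ := ih2
    obtain ⟨Z', g', d', hT'⟩ := distinguished_cocone_triangle (r ≫ f ≫ j)
    obtain ⟨m, hm⟩ := FilQ.cone hQ hT' ha hb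
    obtain ⟨u, hu1, hu2⟩ := complete_distinguished_triangle_morphism _ _ hT hT' i j
      (by change f ≫ j = i ≫ r ≫ f ≫ j; rw [reassoc_of% hir])
    obtain ⟨v, hv1, hv2⟩ := complete_distinguished_triangle_morphism _ _ hT' hT r s
      (by change (r ≫ f ≫ j) ≫ s = r ≫ f; simp only [Category.assoc]; rw [hjs, Category.comp_id])
    have h1 : IsIso (u ≫ v) := by
      let φ : Triangle.mk f g d ⟶ Triangle.mk f g d :=
        { hom₁ := 𝟙 X
          hom₂ := 𝟙 Y
          hom₃ := u ≫ v
          comm₁ := by simp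
          comm₂ := by
            change g ≫ u ≫ v = 𝟙 Y ≫ g
            have e1 : g ≫ u = j ≫ g' := hu1
            have e2 : g' ≫ v = s ≫ g := hv1
            rw [reassoc_of% e1, e2, reassoc_of% hjs, Category.id_comp]
          comm₃ := by
            change d ≫ (𝟙 X)⟦(1 : ℤ)⟧' = (u ≫ v) ≫ d
            have e1 : d ≫ i⟦(1 : ℤ)⟧' = u ≫ d' := hu2
            have e2 : d' ≫ r⟦(1 : ℤ)⟧' = v ≫ d := hv2
            rw [Category.assoc, ← e2, ← Category.assoc, ← e1, Category.assoc, ← Functor.map_comp,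
              hir] }
      exact isIso₃_of_isIso₁₂ φ hT hT (inferInstanceAs (IsIso (𝟙 X))) (inferInstanceAs (IsIso (𝟙 Y)))
    exact ⟨Z', m, u, v ≫ inv (u ≫ v), by rw [← Category.assoc, IsIso.hom_inv_id], hm⟩
  | retract i r hir _ ih =>
    obtain ⟨X', a, j, s, hjs, ha⟩ := ih
    exact ⟨X', a, i ≫ j, s ≫ r, by
      rw [Category.assoc, reassoc_of% hjs, hir], ha⟩

/-- The realisation is conservative on direct summands of filtered objects. -/
lemma rd_cons {X : C} (hX : RD S X) (h0 : ∀ i : ℤ, IsZero ((R l₀).H.obj (X⟦i⟧))) : IsZero X := by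
  have hQ := semi h
  obtain ⟨X', a, i, r, hir, ha⟩ := hX
  obtain ⟨Z, g, d, hT⟩ := distinguished_cocone_triangle (𝟙 X' - r ≫ i)
  obtain ⟨m, hm⟩ := FilQ.cone hQ hT ha ha
  have h1 : ∀ n : ℤ, (R l₀).H.map ((𝟙 X' - r ≫ i)⟦n⟧') = 𝟙 _ := by
    intro n
    rw [Functor.map_sub, Functor.map_comp, Functor.map_sub, Functor.map_comp,
      (h0 n).eq_of_tgt ((R l₀).H.map (r⟦n⟧')) 0, zero_comp, sub_zero,
      CategoryTheory.Functor.map_id, CategoryTheory.Functor.map_id]
  have hZ : IsZero Z := by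
    apply fil_cons h hm
    intro n
    apply hz3_of_iso (R l₀).H hT
    · rw [h1]; infer_instance
    · rw [h1]; infer_instance
  have h2 : IsIso (𝟙 X' - r ≫ i) := isIso1_of_isZero3 hT hZ
  have h3 : i ≫ (𝟙 X' - r ≫ i) = 0 := by
    rw [Preadditive.comp_sub, Category.comp_id, reassoc_of% hir, sub_self]
  have h4 : i = 0 := by
    rw [← cancel_mono (𝟙 X' - r ≫ i), h3, zero_comp]
  rw [IsZero.iff_id_eq_zero, ← hir, h4, zero_comp]

/-- The upper truncations of direct summands of filtered objects. -/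
lemma rd_trunc {X : C} (hX : RD S X) (n : ℤ) : ∃ (M : C) (q : X ⟶ M), RD S M ∧
    (∀ l, RGe (R l) (n + 1) M) ∧ ∀ l, ∀ j : ℤ, n < j → IsIso ((R l).H.map (q⟦j⟧')) := by
  have hQ := semi h
  obtain ⟨X', a, i, r, hir, ha⟩ := hX
  obtain ⟨A, B, f, g, d, hT, hA, hB⟩ := ha.trunc hQ n
  obtain ⟨e, he⟩ := ye2 hT ((r ≫ i) ≫ g) (hA.orth hQ (by omega) hB _)
  have hee : e ≫ e = e := by
    rw [← sub_eq_zero]
    obtain ⟨l, hl⟩ := ye3 hT (e ≫ e - e) (by
      rw [Preadditive.comp_sub, ← Category.assoc, ← he, Category.assoc, ← he]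
      simp only [Category.assoc]
      rw [reassoc_of% hir, sub_self])
    rw [hl, ((hA.shift hQ 1 (n - 1) (by omega)).mono (by omega)).orth hQ (show n < n + 1 by omega) hB l,
      comp_zero]
  obtain ⟨M, ι, π, h1, h2⟩ := IsIdempotentComplete.idempotents_split B e hee
  have c1 : (i ≫ g ≫ π) ≫ ι = i ≫ g := by
    simp only [Category.assoc]
    rw [h2, ← he, Category.assoc, reassoc_of% hir]
  have c2 : e ≫ π = π := by rw [← h2, Category.assoc, h1, Category.comp_id]
  refine ⟨M, i ≫ g ≫ π, ⟨B, n + 1, ι, π, h1, hB⟩, fun l => ?_, fun l j hj => ?_⟩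
  · intro k hk
    have h3 := fil_ge h hB l k hk
    rw [IsZero.iff_id_eq_zero]
    have h4 : 𝟙 ((R l).H.obj (M⟦k⟧)) = (R l).H.map (ι⟦k⟧') ≫ (R l).H.map (π⟦k⟧') := by
      rw [← Functor.map_comp, ← Functor.map_comp, h1, CategoryTheory.Functor.map_id,
        CategoryTheory.Functor.map_id]
    rw [h4, h3.eq_of_tgt ((R l).H.map (ι⟦k⟧')) 0, zero_comp]
  · have b1 : Mono ((R l).H.map (g⟦j⟧')) := hmono2 (R l).H hT j (le_le h hA l _ hj)
    have b2 : Epi ((R l).H.map (g⟦j⟧')) := hepi2 (R l).H hT j (le_le h hA l _ (by omega))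
    have b3 : IsIso ((R l).H.map (g⟦j⟧')) := isIso_of_mono_of_epi _
    refine ⟨(R l).H.map (ι⟦j⟧') ≫ inv ((R l).H.map (g⟦j⟧')) ≫ (R l).H.map (r⟦j⟧'), ?_, ?_⟩
    · rw [← Category.assoc, ← Functor.map_comp, ← Functor.map_comp, c1, Functor.map_comp,
        Functor.map_comp, Category.assoc, IsIso.hom_inv_id_assoc, ← Functor.map_comp,
        ← Functor.map_comp, hir, CategoryTheory.Functor.map_id, CategoryTheory.Functor.map_id]
    · simp only [Category.assoc]
      rw [← Functor.map_comp, ← Functor.map_comp]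
      have c3 : r ≫ i ≫ g ≫ π = g ≫ π := by
        rw [← Category.assoc, ← Category.assoc, he, Category.assoc, c2]
      rw [c3, Functor.map_comp, Functor.map_comp, IsIso.inv_hom_id_assoc, ← Functor.map_comp,
        ← Functor.map_comp, h1, CategoryTheory.Functor.map_id, CategoryTheory.Functor.map_id]

lemma rd_le {X : C} (hX : RD S X) {n : ℤ} (hn : RLe (R l₀) n X) (l : Λ) : RLe (R l) n X := by
  obtain ⟨M, q, hM, h1, h2⟩ := rd_trunc h hX n
  have h3 : IsZero M := by
    apply rd_cons h hM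
    intro j
    by_cases hj : n < j
    · have := h2 l₀ j hj
      exact (hn j hj).of_iso (asIso ((R l₀).H.map (q⟦j⟧'))).symm
    · exact h1 l₀ j (by omega)
  intro j hj
  have := h2 l j hj
  exact ((R l).H.map_isZero (isZero_shift h3 j)).of_iso (asIso ((R l).H.map (q⟦j⟧')))

end

section

variable {C : Type u} [Category.{v} C] [Preadditive C] [HasZeroObject C] [HasShift C ℤ]
  [∀ n : ℤ, (shiftFunctor C n).Additive] [Pretriangulated C] [MonoidalCategory C]
  [SymmetricCategory C] [TensorTriangulated C] [MonoidalPreadditive C] [RightRigidCategory C]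
  [IsTriangulated C] [IsIdempotentComplete C]
  {Λ : Type*} {E : Λ → Type w} [∀ l, Field (E l)] [∀ l, CharZero (E l)]
  {R : ∀ l, Realisation C (E l)} {l₀ : Λ} {S : C → Prop}

/-- The motivic t-structure exists if `C` is generated by a class of objects in the heart. -/
theorem exists_of_class (h : IsHeartClass R l₀ S) (hS : ∀ X, Gen S X) :
    ∃ t : TStructure C, IsMotivic t R := by
  refine exists_motivic (l₀ := l₀) (fun X hX => rd_cons h (rd_of_gen h (hS X)) hX) ?_
  intro X hX
  obtain ⟨M, q, hM, h1, h2⟩ := rd_trunc h (rd_of_gen h (hS X)) (-1)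
  refine ⟨𝟙_ C, M, (λ_ X).hom ≫ q, fun _ => deg_unit, not_isZero_unit (R l₀), fun l => ?_, ?_⟩
  · refine deg_iff.2 ⟨fun j hj => ?_, by simpa using h1 l⟩
    have := h2 l j (by omega)
    exact (rd_le h (rd_of_gen h (hS X)) hX l j hj).of_iso (asIso ((R l).H.map (q⟦j⟧'))).symm
  · have h3 : IsIso ((R l₀).H.map q) := isIso_of_shift_zero q (h2 l₀ 0 (by omega))
    rw [Functor.map_comp]
    infer_instance

end

end Pool.Agent.T6helper6.SM
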