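import Pool.Agent.T6helper6.FF.Fil

/-!
# Triangulated categories generated by a class of objects with regular morphisms and without
morphisms of negative degree
-/

set_option autoImplicit false
set_option linter.unusedSectionVars false
set_option linter.unusedSimpArgs false
set_option backward.isDefEq.respectTransparency false
set_option backward.defeqAttrib.useBackward true

open CategoryTheory Limits MonoidalCategory Pretriangulated Triangulated ZeroObject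

namespace Pool.Agent.T6helper6.SM

open Pool.Agent.Y116.MT Pool.Agent.V1178.MT Pool.Agent.T6helper6.MT Pool.Agent.T6helper6.FF

universe v u w

section

variable {C : Type u} [Category.{v} C] [Preadditive C] [HasZeroObject C] [HasShift C ℤ]
  [∀ n : ℤ, (shiftFunctor C n).Additive] [Pretriangulated C] [MonoidalCategory C]
  [SymmetricCategory C] [TensorTriangulated C]

/-- The pieces `Q b` are closed under direct summands and shifts, there are no maps from lower to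
higher pieces, and all maps between pieces of the same degree are regular. -/
structure Semi (Q : ℤ → C → Prop) : Prop where
  retract {b : ℤ} {X Y : C} (i : Y ⟶ X) (r : X ⟶ Y) : i ≫ r = 𝟙 Y → Q b X → Q b Y
  orth {b c : ℤ} {X Y : C} : b < c → Q b X → Q c Y → ∀ f : X ⟶ Y, f = 0
  regular {b : ℤ} {X Y : C} : Q b X → Q b Y → ∀ f : X ⟶ Y, ∃ g : Y ⟶ X, f ≫ g ≫ f = f
  shift {b : ℤ} {X : C} : Q b X → ∀ a c : ℤ, a + c = b → Q c (X⟦a⟧)

/-- Iterated extensions of pieces of nondecreasing degrees `≥ a`. -/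
inductive FilQ (Q : ℤ → C → Prop) : ℤ → C → Prop
  | zero {a : ℤ} {X : C} : IsZero X → FilQ Q a X
  | step {a b : ℤ} {X K Z : C} {f : K ⟶ X} {g : X ⟶ Z} {h : Z ⟶ K⟦(1 : ℤ)⟧} : a ≤ b →
      Triangle.mk f g h ∈ distTriang C → Q b K → FilQ Q b Z → FilQ Q a X

/-- Iterated extensions of pieces of degrees `≤ a`. -/
inductive LeQ (Q : ℤ → C → Prop) : ℤ → C → Prop
  | zero {a : ℤ} {X : C} : IsZero X → LeQ Q a X
  | step {a b : ℤ} {X K Z : C} {f : K ⟶ X} {g : X ⟶ Z} {h : Z ⟶ K⟦(1 : ℤ)⟧} : b ≤ a →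
      Triangle.mk f g h ∈ distTriang C → Q b K → LeQ Q a Z → LeQ Q a X

variable {Q : ℤ → C → Prop}

lemma FilQ.mono {a a' : ℤ} {X : C} (h : FilQ Q a X) (haa : a' ≤ a) : FilQ Q a' X := by
  cases h with
  | zero h => exact FilQ.zero h
  | step h1 h2 h3 h4 => exact FilQ.step (haa.trans h1) h2 h3 h4

lemma FilQ.iso {a : ℤ} {X Y : C} (h : FilQ Q a X) (e : X ≅ Y) : FilQ Q a Y := by
  cases h with
  | zero h => exact FilQ.zero (h.of_iso e.symm)
  | step h1 h2 h3 h4 => exact FilQ.step h1 (dist_iso_mid h2 e) h3 h4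

lemma LeQ.mono {a a' : ℤ} {X : C} (h : LeQ Q a X) (haa : a ≤ a') : LeQ Q a' X := by
  induction h with
  | zero h => exact LeQ.zero h
  | step h1 h2 h3 h4 ih => exact LeQ.step (by omega) h2 h3 ih

variable (hQ : Semi Q)

include hQ

lemma Semi.iso {b : ℤ} {X Y : C} (h : Q b X) (e : X ≅ Y) : Q b Y :=
  hQ.retract e.inv e.hom e.inv_hom_id h

lemma FilQ.shift {a : ℤ} {X : C} (h : FilQ Q a X) (n : ℤ) :
    ∀ c : ℤ, n + c = a → FilQ Q c (X⟦n⟧) := by
  induction h with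
  | zero h => intro c _; exact FilQ.zero (isZero_shift h n)
  | @step a b X K Z f g h h1 h2 h3 h4 ih =>
    intro c hc
    obtain ⟨f', g', h', hT⟩ := dist_shift h2 n
    exact FilQ.step (b := b - n) (by omega) hT (hQ.shift h3 n (b - n) (by omega))
      (ih (b - n) (by omega))

lemma LeQ.shift {a : ℤ} {X : C} (h : LeQ Q a X) (n : ℤ) :
    ∀ c : ℤ, n + c = a → LeQ Q c (X⟦n⟧) := by
  induction h with
  | zero h => intro c _; exact LeQ.zero (isZero_shift h n)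
  | @step b X K Z f g h h1 h2 h3 h4 ih =>
    intro c hc
    obtain ⟨f', g', h', hT⟩ := dist_shift h2 n
    exact LeQ.step (b := b - n) (by omega) hT (hQ.shift h3 n (b - n) (by omega)) (ih c hc)

lemma FilQ.from_zero {a : ℤ} {X : C} (h : FilQ Q a X) :
    ∀ {c : ℤ} {K : C}, c < a → Q c K → ∀ f : K ⟶ X, f = 0 := by
  induction h with
  | zero h => intro c K _ _ f; exact h.eq_of_tgt _ _
  | @step a b X L Z u v w h1 h2 h3 h4 ih =>
    intro c K hc hK f
    obtain ⟨l, hl⟩ := ce2 h2 f (ih (by omega) hK _)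
    rw [hl, hQ.orth (by omega) hK h3 l, zero_comp]

/-- Maps from lower to higher objects vanish. -/
lemma LeQ.orth {a : ℤ} {X : C} (h : LeQ Q a X) :
    ∀ {c : ℤ} {Y : C}, a < c → FilQ Q c Y → ∀ f : X ⟶ Y, f = 0 := by
  induction h with
  | zero h => intro c K _ _ f; exact h.eq_of_src _ _
  | @step b X L Z u v w h1 h2 h3 h4 ih =>
    intro c Y hc hY f
    obtain ⟨l, hl⟩ := ye2 h2 f (hY.from_zero hQ (by omega) h3 _)
    rw [hl, ih hc hY l, comp_zero]

variable [IsTriangulated C]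

/-- Truncation of filtered objects. -/
lemma FilQ.trunc {a : ℤ} {X : C} (h : FilQ Q a X) (n : ℤ) :
    ∃ (A B : C) (f : A ⟶ X) (g : X ⟶ B) (h : B ⟶ A⟦(1 : ℤ)⟧),
      Triangle.mk f g h ∈ distTriang C ∧ LeQ Q n A ∧ FilQ Q (n + 1) B := by
  induction h with
  | @zero a X h =>
    exact ⟨X, 0, 𝟙 X, 0, 0, contractible_distinguished X, LeQ.zero h, FilQ.zero (isZero_zero C)⟩
  | @step a b X K Z u v w h1 h2 h3 h4 ih =>
    by_cases hbn : b ≤ n
    · obtain ⟨A, B, f, g, h, hT, hA, hB⟩ := ih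
      obtain ⟨A', x, y, hA'⟩ := distinguished_cocone_triangle₁ (v ≫ g)
      have O := someOctahedron (rfl : v ≫ g = v ≫ g) (rotD h2) (rotD hT) (rotD hA')
      obtain ⟨f1, g1, h1, hKA⟩ : ∃ (f1 : K ⟶ A') (g1 : A' ⟶ A) (h1 : A ⟶ K⟦(1 : ℤ)⟧),
          Triangle.mk f1 g1 h1 ∈ distTriang C := by
        obtain ⟨f2, g2, h2, hT2⟩ := dist_shift O.mem (-1)
        exact ⟨_, _, _, dist_isos hT2 ((shiftEquiv C (1 : ℤ)).unitIso.symm.app K)
          ((shiftEquiv C (1 : ℤ)).unitIso.symm.app A') ((shiftEquiv C (1 : ℤ)).unitIso.symm.app A)⟩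
      exact ⟨A', B, x, v ≫ g, y, hA', LeQ.step hbn hKA h3 hA, hB⟩
    · have h5 := contractible_distinguished₁ X
      exact ⟨0, X, 0, 𝟙 X, 0, h5, LeQ.zero (isZero_zero C), FilQ.step (by omega) h2 h3 h4⟩

section Tri

variable [IsIdempotentComplete C]
  {X Y Z : C} {f : X ⟶ Y} {g : Y ⟶ Z} {h : Z ⟶ X⟦(1 : ℤ)⟧}
  (hT : Triangle.mk f g h ∈ distTriang C) {b : ℤ}

include hT

/-- The cone of a map between pieces of the same degree. -/
lemma Semi.cone (hX : Q b X) (hY : Q b Y) :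
    ∃ (N M : C) (u : N ⟶ Z) (v : Z ⟶ M) (w : M ⟶ N⟦(1 : ℤ)⟧),
      Triangle.mk u v w ∈ distTriang C ∧ Q (b - 1) N ∧ Q b M := by
  obtain ⟨k, hk⟩ := hQ.regular hX hY f
  obtain ⟨I, i, r, h1, h2⟩ := IsIdempotentComplete.idempotents_split X (f ≫ k) (by
    rw [Category.assoc, reassoc_of% hk])
  obtain ⟨N, p, d, hN⟩ := distinguished_cocone_triangle r
  obtain ⟨M, p', d', hM⟩ := distinguished_cocone_triangle (i ≫ f)
  have hf : r ≫ i ≫ f = f := by rw [reassoc_of% h2, hk]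
  have O := someOctahedron hf hN hM hT
  refine ⟨N, M, _, _, _, O.mem, ?_, ?_⟩
  · have hp : p = 0 := by
      have h3 : p = i ≫ r ≫ p := by rw [reassoc_of% h1]
      rw [h3, comp12 hN, comp_zero]
    obtain ⟨s, hs⟩ : ∃ s : N ⟶ X⟦(1 : ℤ)⟧, ∃ s' : X⟦(1 : ℤ)⟧ ⟶ N, s ≫ s' = 𝟙 N := by
      obtain ⟨l, hl⟩ := ye3 hN (𝟙 N) (by rw [hp, zero_comp])
      exact ⟨d, l, hl.symm⟩
    obtain ⟨s', hs'⟩ := hs
    exact hQ.retract s s' hs' (hQ.shift hX 1 (b - 1) (by omega))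
  · have hi : (i ≫ f) ≫ k ≫ r = 𝟙 I := by
      have h3 : i ≫ (f ≫ k) ≫ r = 𝟙 I := by rw [← h2, Category.assoc, h1, Category.comp_id, h1]
      rw [← h3]
      simp only [Category.assoc]
    have hd : d' = 0 := by
      have h3 : d' = (d' ≫ (i ≫ f)⟦(1 : ℤ)⟧') ≫ (k ≫ r)⟦(1 : ℤ)⟧' := by
        rw [Category.assoc, ← Functor.map_comp, hi, CategoryTheory.Functor.map_id, Category.comp_id]
      rw [h3, comp31 hM, zero_comp]
    obtain ⟨s, hs⟩ := split3' hM hd
    exact hQ.retract s p' hs hY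

end Tri

variable [IsIdempotentComplete C]

/-- Insertion of a piece below a filtered object. -/
lemma FilQ.insert {b : ℤ} {Z : C} (hZ : FilQ Q b Z) : ∀ {a c : ℤ} {K Y : C} {f : K ⟶ Y}
    {g : Y ⟶ Z} {h : Z ⟶ K⟦(1 : ℤ)⟧}, a ≤ b → a ≤ c → Q c K →
      Triangle.mk f g h ∈ distTriang C → FilQ Q a Y := by
  induction hZ with
  | zero hz =>
    intro a c K Y f g h _ hac hK hT
    exact FilQ.step hac hT hK (FilQ.zero hz)
  | @step b d Z L Z' u v w hbd hL pL hZ' ih =>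
    intro a c K Y f g h hab hac hK hT
    by_cases hcd : c ≤ d
    · exact FilQ.step hac hT hK (FilQ.step (by omega) hL pL hZ')
    obtain ⟨W, x, y, hW⟩ := distinguished_cocone_triangle₁ (g ≫ v)
    have O := someOctahedron (rfl : g ≫ v = g ≫ v) (rotD hT) (rotD hL) (rotD hW)
    obtain ⟨f1, g1, h1, hKWL⟩ : ∃ (f1 : K ⟶ W) (g1 : W ⟶ L) (h1 : L ⟶ K⟦(1 : ℤ)⟧),
        Triangle.mk f1 g1 h1 ∈ distTriang C := by
      obtain ⟨f2, g2, h2, hT2⟩ := dist_shift O.mem (-1)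
      exact ⟨_, _, _, dist_isos hT2 ((shiftEquiv C (1 : ℤ)).unitIso.symm.app K)
        ((shiftEquiv C (1 : ℤ)).unitIso.symm.app W) ((shiftEquiv C (1 : ℤ)).unitIso.symm.app L)⟩
    obtain ⟨L', K', c', f2, g2, h2, hT2, pL', pK', hc'⟩ : ∃ (L' K' : C) (c' : ℤ) (f2 : L' ⟶ W)
        (g2 : W ⟶ K') (h2 : K' ⟶ L'⟦(1 : ℤ)⟧), Triangle.mk f2 g2 h2 ∈ distTriang C ∧
          Q d L' ∧ Q c' K' ∧ d + 1 ≤ c' := by
      by_cases hcd2 : c = d + 1
      · subst hcd2
        have h3 := rotD (rotD hKWL)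
        obtain ⟨N, M, u1, v1, w1, hNQ, pN, pQ⟩ :=
          hQ.cone h3 pL (hQ.shift hK 1 d (by omega))
        obtain ⟨f2, g2, h2, hT2⟩ := dist_shift hNQ (-1)
        exact ⟨N⟦(-1 : ℤ)⟧, M⟦(-1 : ℤ)⟧, d + 1, _, _, _, dist_iso_mid hT2
          ((shiftEquiv C (1 : ℤ)).unitIso.symm.app W), hQ.shift pN (-1) d (by omega),
          hQ.shift pQ (-1) (d + 1) (by omega), le_rfl⟩
      · have h0 : h1 = 0 := hQ.orth (by omega) pL (hQ.shift hK 1 (c - 1) (by omega)) h1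
        obtain ⟨e, -, -⟩ := exists_iso_binaryBiproduct_of_distTriang _ hKWL h0
        have e' : L ⊞ K ≅ W := biprod.braiding L K ≪≫ e.symm
        exact ⟨L, K, c, _, _, _, dist_iso_mid (binaryBiproductTriangle_distinguished L K) e', pL,
          hK, by omega⟩
    obtain ⟨Y', p, d', hY'⟩ := distinguished_cocone_triangle (f2 ≫ x)
    have O2 := someOctahedron (rfl : f2 ≫ x = f2 ≫ x) hT2 hW hY'
    exact FilQ.step (hab.trans hbd) hY' pL' (ih le_rfl (by omega) pK' O2.mem)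

/-- Extensions of filtered objects. -/
lemma FilQ.ext {a : ℤ} {X : C} (hX : FilQ Q a X) : ∀ {a' m : ℤ} {Y Z : C} {f : X ⟶ Y}
    {g : Y ⟶ Z} {h : Z ⟶ X⟦(1 : ℤ)⟧}, m ≤ a → m ≤ a' → Triangle.mk f g h ∈ distTriang C →
      FilQ Q a' Z → FilQ Q m Y := by
  induction hX with
  | zero hX =>
    intro a' m Y Z f g h _ hm hT hZ
    have h1 := isIso2_of_isZero1 hT hX
    exact (hZ.mono hm).iso (asIso g).symm
  | @step a b X K X' u v w hab hKX pK hX' ih =>
    intro a' m Y Z f g h hma hma' hT hZ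
    obtain ⟨Y', p, d, hY'⟩ := distinguished_cocone_triangle (u ≫ f)
    have O := someOctahedron (rfl : u ≫ f = u ≫ f) hKX hT hY'
    have h1 : FilQ Q m Y' := ih (by omega) hma' O.mem hZ
    exact FilQ.insert hQ h1 le_rfl (by omega) pK hY'

/-- Cones of morphisms of filtered objects. -/
lemma FilQ.cone {a a' : ℤ} {X Y Z : C} {f : X ⟶ Y} {g : Y ⟶ Z} {h : Z ⟶ X⟦(1 : ℤ)⟧}
    (hT : Triangle.mk f g h ∈ distTriang C) (hX : FilQ Q a X) (hY : FilQ Q a' Y) :
    ∃ m, FilQ Q m Z :=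
  ⟨min a' (a - 1), FilQ.ext hQ hY (min_le_left _ _) (min_le_right _ _) (rotD hT)
    (hX.shift hQ 1 (a - 1) (by omega))⟩

end

end Pool.Agent.T6helper6.SM
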